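import Pool.Agent.U939.HI.Small

/-!
# Subgroups of small index of the smallest normal subgroup are dense
-/

set_option autoImplicit false

open Set Filter Topology Function
open Pool.Agent.Y453.HB Pool.Agent.R773.HN Pool.Agent.N235.DH
open scoped commutatorElement

namespace Pool.Agent.U939.HI

variable {n : ℕ}

/-- a uniformly continuous one-parameter group in the smallest normal subgroup -/
structure OP (Φ : ℝ → (E n ≃ₜ E n)) : Prop where
  mem : ∀ t, Φ t ∈ SS n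
  add : ∀ s t, Φ (s + t) = Φ s * Φ t
  cont : ∀ ε : ℝ, 0 < ε → ∃ δ > 0, ∀ s t : ℝ, |s - t| < δ → ∀ x, dist (Φ s x) (Φ t x) < ε

theorem cl_OP {N : Subgroup (E n ≃ₜ E n)} (hN : Cov (SS n) N) {Φ : ℝ → (E n ≃ₜ E n)}
    (hΦ : OP Φ) (t : ℝ) : Cl N (Φ t) := by
  intro ε hε
  obtain ⟨δ, hδ, hM⟩ := hΦ.cont ε hε
  have hzero : Φ 0 = 1 := by
    have h3 := hΦ.add 0 0
    rw [add_zero] at h3
    exact (mul_eq_left (a := Φ 0)).1 h3.symm
  have hinv : ∀ s, (Φ s)⁻¹ = Φ (-s) := by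
    intro s
    rw [inv_eq_iff_mul_eq_one, ← hΦ.add, add_neg_cancel, hzero]
  obtain ⟨ι, hι⟩ := exists_embed hδ
  obtain ⟨T₁, T₂, hT, h1'⟩ := hN (fun T => Φ (ι T).1) (fun T => hΦ.mem _)
  obtain ⟨s, hs⟩ : ∃ s, s = ι T₁ := ⟨_, rfl⟩
  obtain ⟨s', hs'⟩ : ∃ s, s = ι T₂ := ⟨_, rfl⟩
  have hne : s ≠ s' := by
    rw [hs, hs']
    exact hι.ne hT
  have h1 : (Φ s.1)⁻¹ * Φ s'.1 ∈ N := by
    rw [hs, hs']
    exact h1'
  have h2 : Φ (s'.1 - s.1) ∈ N := by
    have e : (Φ s.1)⁻¹ * Φ s'.1 = Φ (s'.1 - s.1) := by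
      rw [hinv, ← hΦ.add]
      congr 1
      ring
    rwa [← e]
  obtain ⟨τ, hτ⟩ : ∃ τ : ℝ, τ = s'.1 - s.1 := ⟨_, rfl⟩
  rw [← hτ] at h2
  have hτ0 : τ ≠ 0 := by
    intro h
    apply hne
    apply Subtype.ext
    linarith
  have hτδ : |τ| < δ := by
    rw [hτ, abs_lt]
    constructor <;> linarith [s.2.1, s.2.2, s'.2.1, s'.2.2]
  have hz : ∀ m : ℤ, Φ (m * τ) = Φ τ ^ m := by
    have hnat : ∀ m : ℕ, Φ (m * τ) = Φ τ ^ m := by
      intro m
      induction m with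
      | zero => simp [hzero]
      | succ m ih =>
        rw [pow_succ, ← ih, ← hΦ.add]
        congr 1
        push_cast
        ring
    intro m
    cases m with
    | ofNat m => simpa using hnat m
    | negSucc m =>
      rw [zpow_negSucc, ← hnat (m + 1), hinv]
      congr 1
      push_cast
      ring
  refine ⟨Φ (round (t / τ) * τ), ?_, fun x => ?_⟩
  · rw [hz]
    exact N.zpow_mem h2 _
  · refine hM _ _ ?_ x
    have h4 : (round (t / τ) : ℝ) * τ - t = -(t / τ - round (t / τ)) * τ := by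
      field_simp
      ring
    rw [h4, abs_mul, abs_neg]
    have h5 := abs_sub_round (t / τ)
    have h6 := abs_nonneg τ
    nlinarith

theorem Cl.inv {N : Subgroup (E n ≃ₜ E n)} {φ : E n ≃ₜ E n} (hφ : Cl N φ)
    (hu : UniformContinuous (φ⁻¹ : E n ≃ₜ E n)) : Cl N φ⁻¹ := by
  intro ε hε
  obtain ⟨δ, hδ, h1⟩ := Metric.uniformContinuous_iff.1 hu ε hε
  obtain ⟨h, hh, h2⟩ := hφ δ hδ
  refine ⟨h⁻¹, N.inv_mem hh, fun y => ?_⟩
  have h3 := h1 (show dist (φ (h⁻¹ y)) (h (h⁻¹ y)) < δ by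
    rw [dist_comm]
    exact h2 _)
  rw [inv_apply_self, apply_inv_self] at h3
  exact h3

theorem uc_mem {φ : E n ≃ₜ E n} (h : φ ∈ HamBar n) : UniformContinuous φ := by
  obtain ⟨K, hK, -, hs⟩ := cpt_supp h
  exact Pool.Agent.Y309.HB.uc_cpt φ K hK hs

/-- the elements all of whose conjugates are limits of elements of `N` -/
def CC (N : Subgroup (E n ≃ₜ E n)) : Subgroup (E n ≃ₜ E n) where
  carrier := {φ | φ ∈ HamBar n ∧ ∀ γ ∈ HamBar n, Cl N (γ * φ * γ⁻¹)}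
  one_mem' := ⟨(HamBar n).one_mem, fun γ _ => by
    rw [mul_one, mul_inv_cancel]
    exact Cl.one N⟩
  mul_mem' := by
    rintro a b ⟨ha, ha2⟩ ⟨hb, hb2⟩
    refine ⟨(HamBar n).mul_mem ha hb, fun γ hγ => ?_⟩
    have e : γ * (a * b) * γ⁻¹ = (γ * a * γ⁻¹) * (γ * b * γ⁻¹) := by group
    rw [e]
    exact (ha2 γ hγ).mul (hb2 γ hγ)
      (uc_mem ((HamBar n).mul_mem ((HamBar n).mul_mem hγ ha) ((HamBar n).inv_mem hγ)))
  inv_mem' := by
    rintro a ⟨ha, ha2⟩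
    refine ⟨(HamBar n).inv_mem ha, fun γ hγ => ?_⟩
    have e : γ * a⁻¹ * γ⁻¹ = (γ * a * γ⁻¹)⁻¹ := by group
    rw [e]
    exact (ha2 γ hγ).inv (uc_mem ((HamBar n).inv_mem
      ((HamBar n).mul_mem ((HamBar n).mul_mem hγ ha) ((HamBar n).inv_mem hγ))))

theorem CC_norm (N : Subgroup (E n ≃ₜ E n)) : NormIn (HamBar n) (CC N) := by
  refine ⟨fun x hx => hx.1, fun g hg x hx => ⟨?_, fun γ hγ => ?_⟩⟩
  · exact (HamBar n).mul_mem ((HamBar n).mul_mem hg hx.1) ((HamBar n).inv_mem hg)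
  · have e : γ * (g * x * g⁻¹) * γ⁻¹ = (γ * g) * x * (γ * g)⁻¹ := by group
    rw [e]
    exact hx.2 _ ((HamBar n).mul_mem hγ hg)

theorem fderiv_zero_of_XH {h : E n → ℝ} {p : E n} (h0 : XH h p = 0) : fderiv ℝ h p = 0 := by
  have h1 : ∀ i : Fin n, fderiv ℝ h p ((0 : Fin n → ℝ), (Pi.single i (1 : ℝ) : Fin n → ℝ)) = 0 :=
    fun i => congrFun (congrArg Prod.fst h0) i
  have h2 : ∀ i : Fin n, fderiv ℝ h p ((Pi.single i (1 : ℝ) : Fin n → ℝ), (0 : Fin n → ℝ)) = 0 := by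
    intro i
    have := congrFun (congrArg Prod.snd h0) i
    have h3 : -fderiv ℝ h p ((Pi.single i (1 : ℝ) : Fin n → ℝ), (0 : Fin n → ℝ)) = 0 := this
    linarith
  refine ContinuousLinearMap.ext fun v => ?_
  obtain ⟨a, b⟩ := v
  have ea : ((a, b) : E n) = ∑ i, a i • ((Pi.single i (1 : ℝ) : Fin n → ℝ), (0 : Fin n → ℝ)) +
      ∑ i, b i • ((0 : Fin n → ℝ), (Pi.single i (1 : ℝ) : Fin n → ℝ)) := by
    refine Prod.ext ?_ ?_
    · funext j
      simp [Prod.fst_sum, Finset.sum_apply, Pi.single_apply]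
    · funext j
      simp [Prod.snd_sum, Finset.sum_apply, Pi.single_apply]
  rw [ea, map_add, map_sum, map_sum]
  simp only [map_smul, h1, h2, smul_zero, Finset.sum_const_zero, add_zero]
  rfl

/-- a nontrivial autonomous flow in a small ball and a diffeomorphism which displaces it -/
theorem exists_flow (hn : 0 < n) : ∃ (K : Set (E n)) (Φ : ℝ → (E n ≃ₜ E n)) (κ : E n ≃ₜ E n),
    IsCompact K ∧ OneParam K Φ ∧ IsHam κ ∧ Disjoint (κ '' K) K ∧ K ⊆ D 0 (1 / 4) ∧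
      Supp (D 0 (1 / 4)) κ ∧ ∃ t, Φ t ≠ 1 := by
  obtain ⟨N, q, χ, hq, hχ, hχD, hχK⟩ := cover n {0} isCompact_singleton
    (by
      intro x hx
      rw [mem_singleton_iff] at hx
      rw [hx]
      show Q (0 : E n) < 1
      simp [Q]) (1 / 32) (by norm_num) (by norm_num)
  obtain ⟨i, hi⟩ : ∃ i, χ i 0 ≠ 0 := by
    by_contra hcon
    push Not at hcon
    have h1 := hχK 0 (mem_singleton _)
    rw [Finset.sum_eq_zero fun i _ => hcon i] at h1
    exact zero_ne_one h1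
  have h0D : (0 : E n) ∈ D (q i) (1 / 32) := by
    by_contra h
    exact hi (hχD i 0 h)
  have hqi : nm (q i) ≤ 1 / 32 := by
    have h1 : nm (0 - q i) ≤ 1 / 32 := h0D
    rwa [zero_sub, nm_neg] at h1
  obtain ⟨Φ, hΦ, hΦ0, hΦd⟩ := one_param (hχ i) (D_compact (q i) (1 / 32))
    (D_sub_Q (hq i)) (hχD i)
  obtain ⟨v, hv⟩ := exists_vec hn (show (0 : ℝ) < 1 / 8 by norm_num)
  obtain ⟨κ, h1, h2, h3⟩ := hTR n 0 (q i) v (1 / 32) (1 / 4) (by norm_num)
    (by rw [nm_zero]; norm_num) (by rw [sub_zero]; linarith)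
    (by
      rw [sub_zero]
      have := nm_add (q i) v
      linarith)
  refine ⟨D (q i) (1 / 32), Φ, κ, D_compact _ _, hΦ, h1, ?_, ?_, h2, ?_⟩
  · rw [Set.disjoint_left]
    intro y hy hy'
    have h4 := image_D h3 hy
    have h5 : nm (y - (q i + v)) ≤ 1 / 32 := h4
    have h6 : nm (y - q i) ≤ 1 / 32 := hy'
    have h7 := nm_add (y - q i) (-(y - (q i + v)))
    rw [nm_neg] at h7
    have e : y - q i + -(y - (q i + v)) = v := by abel
    rw [e, hv] at h7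
    linarith
  · intro y hy
    have h6 : nm (y - q i) ≤ 1 / 32 := hy
    show nm (y - 0) ≤ 1 / 4
    have h7 := nm_add (y - q i) (q i)
    rw [sub_add_cancel] at h7
    rw [sub_zero]
    linarith
  · by_contra hcon
    push Not at hcon
    have hX : ∀ x, XH (χ i) x = 0 := by
      intro x
      have h4 := hΦd 0 x
      rw [hΦ0] at h4
      have h5 : (fun s : ℝ => Φ s x) = fun _ => x := by
        funext s
        rw [hcon s]
        rfl
      rw [h5] at h4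
      exact h4.unique (hasDerivAt_const 0 x)
    have hconst := is_const_of_fderiv_eq_zero ((hχ i).differentiable (by simp))
      fun x => fderiv_zero_of_XH (hX x)
    obtain ⟨e, he⟩ := exists_vec hn (show (0 : ℝ) < 1 by norm_num)
    have h6 : χ i e = 0 := by
      apply hχD i e
      intro h7
      have h8 : nm (e - q i) ≤ 1 / 32 := h7
      have h9 := nm_add (e - q i) (q i)
      rw [sub_add_cancel, he] at h9
      linarith
    exact hi ((hconst 0 e).trans h6)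

/-- the closure contains a nontrivial element with all its conjugates -/
theorem CC_ne (hn : 0 < n) {N : Subgroup (E n ≃ₜ E n)} (hN : Cov (SS n) N) : CC N ≠ ⊥ := by
  obtain ⟨K, Φ, κ, hK, hΦ, hκ, hd, hKD, hκs, t₀, ht₀⟩ := exists_flow hn
  have hz : nm (0 : E n) + 1 / 4 < 1 := by rw [nm_zero]; norm_num
  have hΦs : ∀ t, Supp K (Φ t) := fun t => hΦ.supp t
  have hHK : ∀ t, Φ t ∈ HK n (D 0 (1 / 4)) := fun t =>
    HK_mono hKD (HK_ham (hΦ.ham t) (hΦ.supp t))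
  have hκHK : κ ∈ HK n (D 0 (1 / 4)) := HK_ham hκ hκs
  have hmem : ∀ t, ⁅Φ t, κ⁆ ∈ SS n := fun t =>
    comm_SS hn (by norm_num) (by norm_num) hz (hHK t) hκHK
  have hzero : Φ 0 = 1 := by
    have h3 := hΦ.add 0 0
    rw [add_zero] at h3
    exact (mul_eq_left (a := Φ 0)).1 h3.symm
  have hinv : ∀ s, (Φ s)⁻¹ = Φ (-s) := by
    intro s
    rw [inv_eq_iff_mul_eq_one, ← hΦ.add, add_neg_cancel, hzero]
  have hform : ∀ t, ⁅Φ t, κ⁆ = Φ t * (κ * Φ (-t) * κ⁻¹) := by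
    intro t
    rw [commutatorElement_def, hinv]
    group
  have hcomm : ∀ s t, Φ s * (κ * Φ t * κ⁻¹) = (κ * Φ t * κ⁻¹) * Φ s := fun s t =>
    (((hΦs t).conj κ).commute hd (hΦs s)).symm
  have hadd : ∀ s t, ⁅Φ (s + t), κ⁆ = ⁅Φ s, κ⁆ * ⁅Φ t, κ⁆ := by
    intro s t
    rw [hform, hform, hform]
    have e1 : Φ (-(s + t)) = Φ (-s) * Φ (-t) := by
      rw [← hΦ.add]
      congr 1
      ring
    have e2 : κ * Φ (-(s + t)) * κ⁻¹ = (κ * Φ (-s) * κ⁻¹) * (κ * Φ (-t) * κ⁻¹) := by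
      rw [e1]
      group
    rw [e2, hΦ.add]
    have e3 := hcomm t (-s)
    calc Φ s * Φ t * (κ * Φ (-s) * κ⁻¹ * (κ * Φ (-t) * κ⁻¹)) =
        Φ s * (Φ t * (κ * Φ (-s) * κ⁻¹)) * (κ * Φ (-t) * κ⁻¹) := by group
      _ = Φ s * ((κ * Φ (-s) * κ⁻¹) * Φ t) * (κ * Φ (-t) * κ⁻¹) := by rw [e3]
      _ = Φ s * (κ * Φ (-s) * κ⁻¹) * (Φ t * (κ * Φ (-t) * κ⁻¹)) := by group
  have hval1 : ∀ t x, x ∉ κ '' K → (⁅Φ t, κ⁆ : E n ≃ₜ E n) x = Φ t x := by
    intro t x hx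
    rw [hform, mul_apply, (hΦs (-t)).conj κ x hx]
  have hval2 : ∀ t x, x ∈ κ '' K → (⁅Φ t, κ⁆ : E n ≃ₜ E n) x = κ (Φ (-t) (κ⁻¹ x)) := by
    intro t x hx
    rw [hform, mul_apply, hΦs t]
    · rfl
    · intro h
      exact Set.disjoint_left.1 hd (((hΦs (-t)).conj κ).maps hx) h
  obtain ⟨M, hM⟩ := hΦ.lip
  have hcont : ∀ ε : ℝ, 0 < ε → ∃ δ > 0, ∀ s t : ℝ, |s - t| < δ → ∀ x,
      dist ((⁅Φ s, κ⁆ : E n ≃ₜ E n) x) ((⁅Φ t, κ⁆ : E n ≃ₜ E n) x) < ε := by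
    intro ε hε
    obtain ⟨δ₁, hδ₁, h1⟩ := Metric.uniformContinuous_iff.1 (uc_mem (isHam_mem hκ)) ε hε
    have hM0 : 0 < |M| + 1 := by positivity
    have hlip : ∀ s t : ℝ, |s - t| < min ε δ₁ / (|M| + 1) → ∀ x,
        dist (Φ s x) (Φ t x) < min ε δ₁ := by
      intro s t hst x
      have h2 : |s - t| * (|M| + 1) < min ε δ₁ := by rwa [lt_div_iff₀ hM0] at hst
      have h3 := hM s t x
      have h4 : M * |s - t| ≤ |M| * |s - t| :=
        mul_le_mul_of_nonneg_right (le_abs_self M) (abs_nonneg _)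
      nlinarith [abs_nonneg (s - t)]
    refine ⟨min ε δ₁ / (|M| + 1), div_pos (lt_min hε hδ₁) hM0, fun s t hst x => ?_⟩
    by_cases hx : x ∈ κ '' K
    · rw [hval2 s x hx, hval2 t x hx]
      apply h1
      refine (hlip (-s) (-t) ?_ _).trans_le (min_le_right _ _)
      rw [neg_sub_neg, abs_sub_comm]
      exact hst
    · rw [hval1 s x hx, hval1 t x hx]
      exact (hlip s t hst x).trans_le (min_le_left _ _)
  have hCC : ∀ t, ⁅Φ t, κ⁆ ∈ CC N := by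
    intro t
    refine ⟨(Mono_norm (HamBar n)).1 (hmem t), fun γ hγ => ?_⟩
    have hop : OP (fun t => γ * ⁅Φ t, κ⁆ * γ⁻¹) := by
      refine ⟨fun t => (Mono_norm (HamBar n)).2 γ hγ _ (hmem t), fun s t => ?_, fun ε hε => ?_⟩
      · show γ * ⁅Φ (s + t), κ⁆ * γ⁻¹ = γ * ⁅Φ s, κ⁆ * γ⁻¹ * (γ * ⁅Φ t, κ⁆ * γ⁻¹)
        rw [hadd]
        group
      · obtain ⟨η, hη, h1⟩ := Metric.uniformContinuous_iff.1 (uc_mem hγ) ε hε
        obtain ⟨δ, hδ, h2⟩ := hcont η hη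
        exact ⟨δ, hδ, fun s t hst x => h1 (h2 s t hst _)⟩
    exact cl_OP hN hop t
  intro h
  have h1 := hCC t₀
  rw [h, Subgroup.mem_bot] at h1
  apply ht₀
  refine Homeomorph.ext fun x => ?_
  by_cases hx : x ∈ K
  · have hx' : x ∉ κ '' K := fun h2 => Set.disjoint_left.1 hd h2 hx
    rw [← hval1 t₀ x hx', h1]
  · exact hΦs t₀ x hx

/-- subgroups of small index of the smallest normal subgroup are dense -/
theorem dense_SS (hn : 0 < n) {N : Subgroup (E n ≃ₜ E n)} (hN : Cov (SS n) N)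
    {φ : E n ≃ₜ E n} (hφ : φ ∈ HamBar n) : Cl N φ := by
  have h1 : SS n ≤ CC N := Mono_le (CC_norm N) (CC_ne hn hN)
  refine Cl.of_near fun ε hε => ?_
  obtain ⟨s, hs, hsx⟩ := dens hTR hTT (mid n) (Mono_norm (HamBar n))
    (Mono_ne hTR hTT hn (mid n)) hφ hε
  refine ⟨s, ?_, fun x => ?_⟩
  · have h2 := (h1 hs).2 1 (HamBar n).one_mem
    rwa [one_mul, inv_one, mul_one] at h2
  · rw [dist_eq_norm]
    exact hsx x

/-- **Main theorem.** The smallest normal subgroup has no proper subgroup of small index. -/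
theorem small_index (hn : 0 < n) {N : Subgroup (E n ≃ₜ E n)} (hNle : N ≤ SS n)
    (hN : Cov (SS n) N) : SS n ≤ N := by
  obtain ⟨p, r, hr, hpr, hcomm⟩ := exists_ball_comm hn hN
  obtain ⟨a, b, c, d, ha, hb, hc, hd, has, hbs, hcs, hds, hne⟩ := L4 hTR hn
    (q := p) (r := r / 2) (by positivity) (by linarith)
  have hmem : ⁅⁅a, b⁆, ⁅c, d⁆⁆ ∈ HamBar n := by
    have hc' : ∀ f g : E n ≃ₜ E n, f ∈ HamBar n → g ∈ HamBar n → ⁅f, g⁆ ∈ HamBar n := by
      intro f g hf hg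
      rw [commutatorElement_def]
      exact (HamBar n).mul_mem ((HamBar n).mul_mem ((HamBar n).mul_mem hf hg)
        ((HamBar n).inv_mem hf)) ((HamBar n).inv_mem hg)
    exact hc' _ _ (hc' _ _ (isHam_mem ha) (isHam_mem hb)) (hc' _ _ (isHam_mem hc) (isHam_mem hd))
  have hconj : ∀ γ ∈ HamBar n, γ * ⁅⁅a, b⁆, ⁅c, d⁆⁆ * γ⁻¹ ∈ N := by
    intro γ hγ
    have hδ : 0 < r / (8 * (2 * (n : ℝ) + 1)) := by positivity
    obtain ⟨m, hm, hm2⟩ := dense_SS hn hN ((HamBar n).inv_mem hγ) _ hδ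
    obtain ⟨w, hw⟩ : ∃ w, w = m * γ := ⟨_, rfl⟩
    have hwmem : w ∈ HamBar n := by
      rw [hw]
      exact (HamBar n).mul_mem ((Mono_norm (HamBar n)).1 (hNle hm)) hγ
    have hwx : ∀ x, dist (w x) x < r / (8 * (2 * (n : ℝ) + 1)) := by
      intro x
      have h1 := hm2 (γ x)
      rw [inv_apply_self] at h1
      rw [hw]
      exact h1
    have h1 := hcomm _ (conj_HK hr ha has hwmem hwx) _ (conj_HK hr hb hbs hwmem hwx)
      _ (conj_HK hr hc hcs hwmem hwx) _ (conj_HK hr hd hds hwmem hwx)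
    have e : γ * ⁅⁅a, b⁆, ⁅c, d⁆⁆ * γ⁻¹ =
        m⁻¹ * ⁅⁅w * a * w⁻¹, w * b * w⁻¹⁆, ⁅w * c * w⁻¹, w * d * w⁻¹⁆⁆ * m := by
      rw [hw]
      simp only [commutatorElement_def]
      group
    rw [e]
    exact N.mul_mem (N.mul_mem (N.inv_mem hm) h1) hm
  obtain ⟨P, hP⟩ : ∃ P : Subgroup (E n ≃ₜ E n), P =
      Subgroup.closure {x | ∃ γ ∈ HamBar n, x = γ * ⁅⁅a, b⁆, ⁅c, d⁆⁆ * γ⁻¹} := ⟨_, rfl⟩
  have hPn : NormIn (HamBar n) P := by
    rw [hP]
    refine ⟨?_, fun g hg x hx => ?_⟩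
    · rw [Subgroup.closure_le]
      rintro _ ⟨γ, hγ, rfl⟩
      exact (HamBar n).mul_mem ((HamBar n).mul_mem hγ hmem) ((HamBar n).inv_mem hγ)
    · induction hx using Subgroup.closure_induction with
      | mem x hx =>
        obtain ⟨γ, hγ, rfl⟩ := hx
        refine Subgroup.subset_closure ⟨g * γ, (HamBar n).mul_mem hg hγ, ?_⟩
        group
      | one =>
        rw [mul_one, mul_inv_cancel]
        exact Subgroup.one_mem _
      | mul x y _ _ hx hy =>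
        have e : g * (x * y) * g⁻¹ = (g * x * g⁻¹) * (g * y * g⁻¹) := by group
        rw [e]
        exact Subgroup.mul_mem _ hx hy
      | inv x _ hx =>
        have e : g * x⁻¹ * g⁻¹ = (g * x * g⁻¹)⁻¹ := by group
        rw [e]
        exact Subgroup.inv_mem _ hx
  have hPne : P ≠ ⊥ := by
    intro h
    apply hne
    rw [← Subgroup.mem_bot, ← h, hP]
    refine Subgroup.subset_closure ⟨1, (HamBar n).one_mem, ?_⟩
    group
  refine (Mono_le hPn hPne).trans ?_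
  rw [hP, Subgroup.closure_le]
  rintro _ ⟨γ, hγ, rfl⟩
  exact hconj γ hγ

end Pool.Agent.U939.HI
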