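import Pool.Agent.U939.HI.Prod

/-!
# Subgroups of countable index are dense
-/

set_option autoImplicit false

open Set Filter Topology Function
open Pool.Agent.Y453.HB Pool.Agent.R773.HN Pool.Agent.N235.DH

namespace Pool.Agent.U939.HI

variable {n : ℕ}

/-- the set of the left cosets of `N` in `Γ` is smaller than the continuum (pigeonhole form) -/
def Cov {G : Type} [Group G] (Γ N : Subgroup G) : Prop :=
  ∀ x : (ℕ → Bool) → G, (∀ T, x T ∈ Γ) → ∃ S T, S ≠ T ∧ (x S)⁻¹ * x T ∈ N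

/-- `φ` is a uniform limit of elements of `N` -/
def Cl (N : Subgroup (E n ≃ₜ E n)) (φ : E n ≃ₜ E n) : Prop :=
  ∀ ε : ℝ, 0 < ε → ∃ h ∈ N, ∀ x, dist (h x) (φ x) < ε

theorem Cl.mul {N : Subgroup (E n ≃ₜ E n)} {φ ψ : E n ≃ₜ E n} (hφ : Cl N φ) (hψ : Cl N ψ)
    (hu : UniformContinuous φ) : Cl N (φ * ψ) := by
  intro ε hε
  obtain ⟨δ, hδ, h1⟩ := Metric.uniformContinuous_iff.1 hu (ε / 2) (half_pos hε)
  obtain ⟨a, ha, ha2⟩ := hφ (ε / 2) (half_pos hε)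
  obtain ⟨b, hb, hb2⟩ := hψ δ hδ
  refine ⟨a * b, N.mul_mem ha hb, fun x => ?_⟩
  rw [mul_apply, mul_apply]
  calc dist (a (b x)) (φ (ψ x)) ≤ dist (a (b x)) (φ (b x)) + dist (φ (b x)) (φ (ψ x)) :=
        dist_triangle _ _ _
    _ < ε / 2 + ε / 2 := add_lt_add (ha2 _) (h1 (hb2 x))
    _ = ε := add_halves ε

theorem Cl.one (N : Subgroup (E n ≃ₜ E n)) : Cl N 1 := fun ε hε =>
  ⟨1, N.one_mem, fun x => by rw [dist_self]; exact hε⟩

theorem Cl.of_near {N : Subgroup (E n ≃ₜ E n)} {φ : E n ≃ₜ E n}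
    (h : ∀ ε : ℝ, 0 < ε → ∃ ψ, Cl N ψ ∧ ∀ x, dist (ψ x) (φ x) < ε) : Cl N φ := by
  intro ε hε
  obtain ⟨ψ, h1, h2⟩ := h (ε / 2) (half_pos hε)
  obtain ⟨a, ha, ha2⟩ := h1 (ε / 2) (half_pos hε)
  refine ⟨a, ha, fun x => ?_⟩
  calc dist (a x) (φ x) ≤ dist (a x) (ψ x) + dist (ψ x) (φ x) := dist_triangle _ _ _
    _ < ε / 2 + ε / 2 := add_lt_add (ha2 _) (h2 x)
    _ = ε := add_halves ε

theorem exists_embed {δ : ℝ} (hδ : 0 < δ) : ∃ f : (ℕ → Bool) → Set.Ioo (0 : ℝ) δ,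
    Function.Injective f := by
  have h1 : Cardinal.mk (ℕ → Bool) ≤ Cardinal.mk (Set.Ioo (0 : ℝ) δ) := by
    rw [Cardinal.mk_Ioo_real hδ]
    simp
  obtain ⟨f⟩ := h1
  exact ⟨f, f.injective⟩

/-- one-parameter groups are in the closure -/
theorem cl_oneParam {N : Subgroup (E n ≃ₜ E n)} (hN : Cov (HamBar n) N) {K : Set (E n)}
    {Φ : ℝ → (E n ≃ₜ E n)} (hΦ : OneParam K Φ) (t : ℝ) : Cl N (Φ t) := by
  intro ε hε
  obtain ⟨M, hM⟩ := hΦ.lip
  have hM0 : 0 < |M| + 1 := by positivity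
  set δ : ℝ := ε / (|M| + 1) with hδdef
  have hδ : 0 < δ := div_pos hε hM0
  have hzero : Φ 0 = 1 := by
    have h3 := hΦ.add 0 0
    rw [add_zero] at h3
    exact (mul_eq_left (a := Φ 0)).1 h3.symm
  have hinv : ∀ s, (Φ s)⁻¹ = Φ (-s) := by
    intro s
    rw [inv_eq_iff_mul_eq_one, ← hΦ.add, add_neg_cancel, hzero]
  obtain ⟨ι, hι⟩ := exists_embed hδ
  obtain ⟨T₁, T₂, hT, h1'⟩ := hN (fun T => Φ (ι T).1) (fun T => isHam_mem (hΦ.ham _))
  obtain ⟨s, hs⟩ : ∃ s, s = ι T₁ := ⟨_, rfl⟩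
  obtain ⟨s', hs'⟩ : ∃ s, s = ι T₂ := ⟨_, rfl⟩
  have hne : s ≠ s' := by
    rw [hs, hs']
    exact hι.ne hT
  have h1 : (Φ s.1)⁻¹ * Φ s'.1 ∈ N := by
    rw [hs, hs']
    exact h1'
  have h2 : Φ (s'.1 - s.1) ∈ N := by
    have e : (Φ s.1)⁻¹ * Φ s'.1 = Φ (s'.1 - s.1) := by
      rw [hinv, ← hΦ.add]
      congr 1
      ring
    rwa [← e]
  obtain ⟨τ, hτ⟩ : ∃ τ : ℝ, τ = s'.1 - s.1 := ⟨_, rfl⟩
  rw [← hτ] at h2
  have hτ0 : τ ≠ 0 := by
    intro h
    apply hne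
    apply Subtype.ext
    linarith
  have hτδ : |τ| < δ := by
    rw [hτ, abs_lt]
    constructor <;> linarith [s.2.1, s.2.2, s'.2.1, s'.2.2]
  have hz : ∀ m : ℤ, Φ (m * τ) = Φ τ ^ m := by
    have hnat : ∀ m : ℕ, Φ (m * τ) = Φ τ ^ m := by
      intro m
      induction m with
      | zero => simp [hzero]
      | succ m ih =>
        rw [pow_succ, ← ih, ← hΦ.add]
        congr 1
        push_cast
        ring
    intro m
    cases m with
    | ofNat m => simpa using hnat m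
    | negSucc m =>
      rw [zpow_negSucc, ← hnat (m + 1), hinv]
      congr 1
      push_cast
      ring
  refine ⟨Φ (round (t / τ) * τ), ?_, fun x => ?_⟩
  · rw [hz]
    exact N.zpow_mem h2 _
  · refine (hM _ _ x).trans_lt ?_
    have h3 : |(round (t / τ) : ℝ) * τ - t| ≤ |τ| := by
      have h4 : (round (t / τ) : ℝ) * τ - t = -(t / τ - round (t / τ)) * τ := by
        field_simp
        ring
      rw [h4, abs_mul, abs_neg]
      have h5 := abs_sub_round (t / τ)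
      have h6 := abs_nonneg τ
      nlinarith
    have h4 : M * |(round (t / τ) : ℝ) * τ - t| ≤ |M| * |τ| :=
      (mul_le_mul_of_nonneg_right (le_abs_self M) (abs_nonneg _)).trans
        (mul_le_mul_of_nonneg_left h3 (abs_nonneg _))
    have h5 : (|M| + 1) * δ = ε := by
      rw [hδdef]
      field_simp
    have h6 := abs_nonneg M
    nlinarith [abs_nonneg τ]

/-- subgroups of countable index are dense -/
theorem dense {N : Subgroup (E n ≃ₜ E n)} (hN : Cov (HamBar n) N) {φ : E n ≃ₜ E n}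
    (hφ : φ ∈ HamBar n) : Cl N φ := by
  refine Cl.of_near fun ε hε => ?_
  obtain ⟨v, hv, hv2⟩ := approx hφ hε
  refine ⟨v, ?_, fun x => by rw [dist_eq_norm]; exact hv2 x⟩
  obtain ⟨K, hK, hKQ, hvs, w, hwv, hw⟩ := ham_approx hv
  refine Cl.of_near fun η hη => ?_
  obtain ⟨m, hm⟩ := (Metric.tendstoUniformly_iff.1 hwv.1 η hη).exists
  refine ⟨w m, ?_, fun x => by rw [dist_comm]; exact hm x⟩
  obtain ⟨l, hl1, hl2⟩ := hw m
  rw [hl2]
  clear hl2
  induction l with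
  | nil => exact Cl.one N
  | cons Ψ l ih =>
    have h2 := hl1 Ψ List.mem_cons_self
    rw [List.map_cons, List.prod_cons]
    exact (cl_oneParam hN h2 1).mul (ih fun Φ hΦ => hl1 Φ (List.mem_cons_of_mem _ hΦ))
      (Pool.Agent.Y309.HB.uc_cpt (Ψ 1) K hK (h2.supp 1))

end Pool.Agent.U939.HI
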