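import Pool.Agent.U939.HI.Den2

/-!
# The final form
-/

set_option autoImplicit false

open Set Filter Topology Function
open Pool.Agent.Y453.HB Pool.Agent.R773.HN Pool.Agent.N235.DH
open scoped commutatorElement

namespace Pool.Agent.U939.HI

variable {n : ℕ}

theorem cov_of {G G' : Type} [Group G] [Group G'] {Γ : Subgroup G} (j : G' →* G)
    {H : Subgroup G'} (hj : ∀ x ∈ Γ, ∃ y, j y = x)
    (h : Cardinal.mk (G' ⧸ H) < Cardinal.continuum) : Cov Γ (H.map j) := by
  intro x hx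
  choose y hy using fun T => hj (x T) (hx T)
  have hninj : ¬ Function.Injective fun T => (QuotientGroup.mk (y T) : G' ⧸ H) := by
    intro hinj
    have h1 := Cardinal.mk_le_of_injective hinj
    have h2 : Cardinal.mk (ℕ → Bool) = Cardinal.continuum := by simp
    rw [h2] at h1
    exact absurd h1 (not_le.2 h)
  obtain ⟨S, T, h1, hne⟩ := Function.not_injective_iff.1 hninj
  refine ⟨S, T, hne, (y S)⁻¹ * y T, QuotientGroup.eq.1 h1, ?_⟩
  rw [map_mul, map_inv, hy, hy]

/-- the subgroups of index less than the continuum -/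
theorem fin (hn : 0 < n) :
    ∃ S : Subgroup (HamBar n), S.Normal ∧ IsSimpleGroup S ∧
      (∀ N : Subgroup (HamBar n), N.Normal → N ≠ ⊥ → S ≤ N) ∧
      (∀ H : Subgroup S, Cardinal.mk (S ⧸ H) < Cardinal.continuum → H = ⊤) ∧
      (∀ (X : Type) [MulAction S X], Cardinal.mk X < Cardinal.continuum →
        ∀ (s : S) (x : X), s • x = x) ∧
      ∀ H : Subgroup (HamBar n), Cardinal.mk (HamBar n ⧸ H) < Cardinal.continuum →
        S ≤ H ∧ ∀ φ ∈ HamBar n, ∀ ε : ℝ, 0 < ε → ∃ s ∈ H, ∀ x,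
          dist ((s : E n ≃ₜ E n) x) (φ x) < ε := by
  obtain ⟨S, s1, s2, s3, s4, -, -⟩ := main_of hTR hTT hn (HamBar n)
    (fun _ hu => isHam_mem hu) le_rfl
  have hSne : S ≠ ⊥ := by
    rintro rfl
    have := s2.toNontrivial
    exact not_subsingleton _ (inferInstance : Subsingleton (⊥ : Subgroup (HamBar n)))
  have hmap : NormIn (HamBar n) (S.map (HamBar n).subtype) ∧ S.map (HamBar n).subtype ≠ ⊥ := by
    refine ⟨⟨?_, ?_⟩, ?_⟩
    · rintro _ ⟨x, -, rfl⟩
      exact x.2
    · rintro g hg _ ⟨x, hx, rfl⟩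
      exact ⟨⟨g, hg⟩ * x * ⟨g, hg⟩⁻¹, s1.conj_mem x hx ⟨g, hg⟩, rfl⟩
    · intro h
      apply hSne
      rw [eq_bot_iff]
      intro x hx
      have h3 : (x : E n ≃ₜ E n) ∈ S.map (HamBar n).subtype := ⟨x, hx, rfl⟩
      rw [h, Subgroup.mem_bot] at h3
      rw [Subgroup.mem_bot]
      exact Subtype.ext h3
  have hS1 : SS n ≤ S.map (HamBar n).subtype := Mono_le hmap.1 hmap.2
  have hS2 : ∀ x ∈ S, (x : E n ≃ₜ E n) ∈ SS n := by
    have hnorm : ((SS n).subgroupOf (HamBar n)).Normal := ⟨fun x hx g => by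
      rw [Subgroup.mem_subgroupOf] at hx ⊢
      exact (Mono_norm (HamBar n)).2 g g.2 x hx⟩
    have hne : (SS n).subgroupOf (HamBar n) ≠ ⊥ := by
      intro h
      obtain ⟨⟨m, hm⟩, hm'⟩ := (Subgroup.ne_bot_iff_exists_ne_one).1
        (Mono_ne hTR hTT hn (mid n))
      have h1 : (⟨m, (Mono_norm (HamBar n)).1 hm⟩ : HamBar n) ∈
        (SS n).subgroupOf (HamBar n) := Subgroup.mem_subgroupOf.2 hm
      rw [h, Subgroup.mem_bot] at h1
      have h2 : m = 1 := congrArg (fun y : HamBar n => (y : E n ≃ₜ E n)) h1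
      exact hm' (Subtype.ext h2)
    intro x hx
    exact Subgroup.mem_subgroupOf.1 (s3 _ hnorm hne hx)
  have t1 : ∀ H : Subgroup S, Cardinal.mk (S ⧸ H) < Cardinal.continuum → H = ⊤ := by
    intro H hH
    have hc : Cov (SS n) (H.map ((HamBar n).subtype.comp S.subtype)) := by
      refine cov_of _ (fun x hx => ?_) hH
      obtain ⟨y, hy, rfl⟩ := hS1 hx
      exact ⟨⟨y, hy⟩, rfl⟩
    have hle : H.map ((HamBar n).subtype.comp S.subtype) ≤ SS n := by
      rintro _ ⟨x, -, rfl⟩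
      exact hS2 _ x.2
    have h1 := small_index hn hle hc
    rw [eq_top_iff]
    intro s _
    obtain ⟨s', hs', h2⟩ := h1 (hS2 _ s.2)
    have h3 : s' = s := Subtype.ext (Subtype.ext h2)
    rwa [← h3]
  have t2 : ∀ (X : Type) [MulAction S X], Cardinal.mk X < Cardinal.continuum →
      ∀ (s : S) (x : X), s • x = x := by
    intro X _ hX s x
    have h1 : Cardinal.mk (S ⧸ MulAction.stabilizer S x) < Cardinal.continuum := by
      refine lt_of_le_of_lt ?_ hX
      have h2 : Function.Injective fun y : S ⧸ MulAction.stabilizer S x =>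
          (((MulAction.orbitEquivQuotientStabilizer S x).symm y : MulAction.orbit S x) : X) :=
        Subtype.val_injective.comp (MulAction.orbitEquivQuotientStabilizer S x).symm.injective
      exact Cardinal.mk_le_of_injective h2
    have h3 := t1 _ h1
    have h4 : s ∈ MulAction.stabilizer S x := by
      rw [h3]
      exact Subgroup.mem_top s
    exact h4
  refine ⟨S, s1, s2, s3, t1, t2, fun H hH => ?_⟩
  have hSH : S ≤ H := by
    have hc : Cov (HamBar n) (H.map (HamBar n).subtype) :=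
      cov_of _ (fun x hx => ⟨⟨x, hx⟩, rfl⟩) hH
    have hc2 : Cov (SS n) (H.map (HamBar n).subtype ⊓ SS n) := by
      intro x hx
      obtain ⟨T₁, T₂, h1, h2⟩ := hc x fun T => (Mono_norm (HamBar n)).1 (hx T)
      exact ⟨T₁, T₂, h1, h2, (SS n).mul_mem ((SS n).inv_mem (hx _)) (hx _)⟩
    have h1 := small_index hn inf_le_right hc2
    intro s hs
    obtain ⟨s', hs', h2⟩ := (h1 (hS2 s hs)).1
    have h3 : s' = s := Subtype.ext h2
    rwa [← h3]
  refine ⟨hSH, fun φ hφ ε hε => ?_⟩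
  obtain ⟨s, hs, h⟩ := s4 φ hφ ε hε
  exact ⟨s, hSH hs, h⟩

end Pool.Agent.U939.HI
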