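import Pool.Agent.U939.HI.Dense
import Pool.Agent.R773.HN.Frag1

/-!
# Subgroups of countable index contain a nontrivial normal subgroup
-/

set_option autoImplicit false

open Set Filter Topology Function
open Pool.Agent.Y453.HB Pool.Agent.R773.HN Pool.Agent.N235.DH
open scoped commutatorElement

namespace Pool.Agent.U939.HI

variable {n : ℕ}

/-- a Hamiltonian diffeomorphism supported in a small ball which moves the centre -/
theorem exists_push (hn : 0 < n) (c : E n) {R : ℝ} (hR : 0 < R) (hc : nm c + R < 1) :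
    ∃ κ : E n ≃ₜ E n, IsHam κ ∧ Supp (D c R) κ ∧ κ c ≠ c := by
  obtain ⟨v, hv⟩ := exists_vec hn (show (0 : ℝ) < R / 4 by positivity)
  obtain ⟨κ, h1, h2, h3⟩ := trans flow n c c v (R / 4) R (by positivity) hc
    (by rw [sub_self, nm_zero]; linarith) (by rw [add_sub_cancel_left, hv]; linarith)
  refine ⟨κ, h1, h2, ?_⟩
  rw [h3 c (mem_D_self c (by positivity))]
  intro h
  have h4 : v = 0 := by simpa using h
  rw [h4, nm_zero] at hv
  linarith

theorem HK_mono {K K' : Set (E n)} (h : K ⊆ K') {φ : E n ≃ₜ E n} (hφ : φ ∈ HK n K) :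
    φ ∈ HK n K' := by
  obtain ⟨h1, u, h2, h3, h4⟩ := hφ
  exact ⟨fun x hx => h1 x fun hx' => hx (h hx'), u, fun k x hx => h2 k x fun hx' => hx (h hx'),
    h3, h4⟩

theorem D_sub_Q {z : E n} {r : ℝ} (h : nm z + r < 1) : D z r ⊆ {p : E n | Q p < 1} := by
  intro p hp
  have h1 : nm (p - z) ≤ r := hp
  have h2 := nm_add (p - z) z
  rw [sub_add_cancel] at h2
  have h3 : nm p < 1 := by linarith
  unfold nm at h3
  rw [Real.sqrt_lt' one_pos] at h3
  simpa using h3

/-- the limits supported in `D z r` whose support is in `A` -/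
def Loc (z : E n) (r : ℝ) (A : Set (E n)) : Subgroup (E n ≃ₜ E n) where
  carrier := {x | x ∈ HK n (D z r) ∧ Supp A x}
  one_mem' := ⟨HK_one _, Supp.one A⟩
  mul_mem' := fun h1 h2 => ⟨HK_mul (D_compact _ _) h1.1 h2.1, h1.2.mul h2.2⟩
  inv_mem' := fun h1 => ⟨HK_inv (D_compact _ _) h1.1, h1.2.inv⟩

theorem mem_Loc {z : E n} {r : ℝ} {A : Set (E n)} {x : E n ≃ₜ E n} :
    x ∈ Loc z r A ↔ x ∈ HK n (D z r) ∧ Supp A x := Iff.rfl

open Classical in
/-- for one of the balls, all local elements agree there with elements of `N` -/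
theorem full {z : E n} {r : ℝ} (hz : nm z + r < 1) (d : Balls n z r)
    {N : Subgroup (E n ≃ₜ E n)} (hN : Cov (HamBar n) N) :
    ∃ k, ∀ a ∈ Loc z r (D (d.q k) (d.R k)), ∃ h ∈ N, ∀ y ∈ D (d.q k) (d.R k), h y = a y := by
  by_contra hcon
  push Not at hcon
  choose a ha ha2 using hcon
  have hf : ∀ T : ℕ → Bool, IsFam d fun k => if T k then a k else 1 := by
    intro T
    refine ⟨fun k => ?_, fun k => ?_⟩
    · by_cases h : T k
      · simp only [h, if_true]
        exact (ha k).1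
      · simp only [h, Bool.false_eq_true, if_false]
        exact HK_one _
    · by_cases h : T k
      · simp only [h, if_true]
        exact (ha k).2
      · simp only [h, Bool.false_eq_true, if_false]
        exact Supp.one _
  choose X hX1 hX2 hX3 using fun T => d.infprod (hf T)
  have key : ∀ S T : ℕ → Bool, (X S)⁻¹ * X T ∈ N → ∀ k, S k = false → T k = true → False := by
    intro S T h k hS hT
    obtain ⟨y, hy, hy2⟩ := ha2 k _ h
    apply hy2
    have h1 : X T y = a k y := by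
      rw [hX2 T k y hy]
      simp [hT]
    have h2 : a k y ∈ D (d.q k) (d.R k) := (ha k).2.maps hy
    have h3 : X S (a k y) = a k y := by
      rw [hX2 S k _ h2]
      simp only [hS, Bool.false_eq_true, if_false]
      rfl
    rw [mul_apply, h1]
    calc (X S)⁻¹ (a k y) = (X S)⁻¹ (X S (a k y)) := by rw [h3]
      _ = a k y := inv_apply_self _ _
  obtain ⟨S, T, hST, h1⟩ := hN X (fun T => HK_mem (D_compact _ _) (D_sub_Q hz) (hX1 T))
  apply hST
  funext k
  cases hS : S k <;> cases hT : T k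
  · rfl
  · exact (key S T h1 k hS hT).elim
  · refine (key T S ?_ k hT hS).elim
    have h2 := N.inv_mem h1
    rwa [mul_inv_rev, inv_inv] at h2
  · rfl

/-- a nontrivial local element of `N` -/
theorem exists_local (hn : 0 < n) {z : E n} {r : ℝ} (hr : 0 < r) (hz : nm z + r < 1)
    {N : Subgroup (E n ≃ₜ E n)} (hN : Cov (HamBar n) N) :
    ∃ φ ∈ N, φ ∈ HK n (D z r) ∧ φ ≠ 1 := by
  obtain ⟨d⟩ := exists_balls hn z hr
  have hq : ∀ k, nm (d.q k) + d.R k < 1 := fun k => (d.hnm k).trans_lt hz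
  choose b hb1 hb2 hb3 using fun k => exists_push hn (d.q k) (d.hR k) (hq k)
  have hf : ∀ T : ℕ → Bool, IsFam d fun k => if T k then b k else 1 := by
    intro T
    refine ⟨fun k => ?_, fun k => ?_⟩
    · by_cases h : T k
      · simp only [h, if_true]
        exact HK_mono (d.hsub k) (HK_ham (hb1 k) (hb2 k))
      · simp only [h, Bool.false_eq_true, if_false]
        exact HK_one _
    · by_cases h : T k
      · simp only [h, if_true]
        exact hb2 k
      · simp only [h, Bool.false_eq_true, if_false]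
        exact Supp.one _
  choose X hX1 hX2 hX3 using fun T => d.infprod (hf T)
  obtain ⟨S, T, hST, h1⟩ := hN X
    (fun T => HK_mem (D_compact _ _) (D_sub_Q hz) (hX1 T))
  refine ⟨_, h1, HK_mul (D_compact _ _) (HK_inv (D_compact _ _) (hX1 S)) (hX1 T), ?_⟩
  intro h
  have h2 : X S = X T := by
    rw [inv_mul_eq_one] at h
    exact h
  apply hST
  funext k
  by_contra hk
  have h3 : X S (d.q k) = X T (d.q k) := by rw [h2]
  rw [hX2 S k _ (mem_D_self _ (d.hR k).le), hX2 T k _ (mem_D_self _ (d.hR k).le)] at h3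
  cases hS : S k <;> cases hT : T k
  · exact hk (hS.trans hT.symm)
  · simp only [hS, hT, Bool.false_eq_true, if_false, if_true] at h3
    exact hb3 k h3.symm
  · simp only [hS, hT, Bool.false_eq_true, if_false, if_true] at h3
    exact hb3 k h3
  · exact hk (hS.trans hT.symm)

/-- conjugation by homeomorphisms which agree on the support -/
theorem conj_agree {A : Set (E n)} {g x h : E n ≃ₜ E n} (hgs : Supp A g) (hxs : Supp A x)
    (hh2 : ∀ y ∈ A, h y = g y) : g * x * g⁻¹ = h * x * h⁻¹ := by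
  refine Homeomorph.ext fun y => ?_
  by_cases hy : y ∈ A
  · have h1 : g⁻¹ y ∈ A := hgs.inv.maps hy
    have h2 : h⁻¹ y = g⁻¹ y := by
      have h3 := hh2 _ h1
      rw [apply_inv_self] at h3
      calc h⁻¹ y = h⁻¹ (h (g⁻¹ y)) := by rw [h3]
        _ = g⁻¹ y := inv_apply_self _ _
    rw [mul_apply, mul_apply, mul_apply, mul_apply, h2, hh2 _ (hxs.maps h1)]
  · have h1 : h⁻¹ y ∉ A := by
      intro h3
      apply hy
      have h4 := hh2 _ h3
      rw [apply_inv_self] at h4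
      rw [h4]
      exact hgs.maps h3
    rw [mul_apply, mul_apply, mul_apply, mul_apply, hgs.inv y hy, hxs y hy, hgs y hy,
      hxs _ h1, apply_inv_self]

/-- the commutators of the elements with support in a small ball are in `N` -/
theorem exists_ball (hn : 0 < n) {N : Subgroup (E n ≃ₜ E n)} (hN : Cov (HamBar n) N) :
    ∃ (p : E n) (r : ℝ), 0 < r ∧ nm p + r < 1 ∧ ∀ f ∈ HK n (D p r), ∀ g ∈ HK n (D p r),
      ⁅f, g⁆ ∈ N := by
  have hz : nm (0 : E n) + 1 / 2 < 1 := by rw [nm_zero]; norm_num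
  obtain ⟨d⟩ := exists_balls hn (0 : E n) (show (0 : ℝ) < 1 / 2 by norm_num)
  obtain ⟨k, hk⟩ := full hz d hN
  obtain ⟨φ, hφN, hφ1, hφ2⟩ := exists_local hn (d.hR k) ((d.hnm k).trans_lt hz) hN
  obtain ⟨Γ, hΓ⟩ : ∃ Γ, Γ = Loc (0 : E n) (1 / 2) (D (d.q k) (d.R k)) := ⟨_, rfl⟩
  have hnorm : NormIn Γ (N ⊓ Γ) := by
    refine ⟨inf_le_right, fun g hg x hx => ⟨?_, Γ.mul_mem (Γ.mul_mem hg hx.2) (Γ.inv_mem hg)⟩⟩
    obtain ⟨h, hh, hh2⟩ := hk g (hΓ ▸ hg)
    have hgs : Supp (D (d.q k) (d.R k)) g := (mem_Loc.1 (hΓ ▸ hg)).2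
    have hxs : Supp (D (d.q k) (d.R k)) x := (mem_Loc.1 (hΓ ▸ hx.2)).2
    have e : g * x * g⁻¹ = h * x * h⁻¹ := conj_agree hgs hxs hh2
    change g * x * g⁻¹ ∈ N
    rw [e]
    exact N.mul_mem (N.mul_mem hh hx.1) (N.inv_mem hh)
  obtain ⟨p, hp⟩ := exists_moved hφ2
  have hφs : Supp (D (d.q k) (d.R k)) φ := hφ1.1
  have hW : {x | φ x ≠ x} ∈ 𝓝 p := (isOpen_ne_fun φ.continuous continuous_id).mem_nhds hp
  have hpD : p ∈ D (d.q k) (d.R k) := by
    by_contra h
    exact hp (hφs p h)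
  have hp1 : nm p < 1 := nm_lt_one (D_sub_Q hz (d.hsub k hpD))
  obtain ⟨r, hr, hpr, hWr, hd⟩ := displaced hp hW hp1
  have hDD : D p r ⊆ D (d.q k) (d.R k) := by
    intro x hx
    by_contra h
    exact hWr hx (hφs x h)
  have hφΓ : φ ∈ N ⊓ Γ := ⟨hφN, by
    rw [hΓ]
    exact ⟨HK_mono (d.hsub k) hφ1, hφs⟩⟩
  have hloc : ∀ f ∈ HK n (D p r), f ∈ Γ := by
    intro f hf
    rw [hΓ]
    exact ⟨HK_mono (hDD.trans (d.hsub k)) hf, Supp.mono hDD hf.1⟩
  exact ⟨p, r, hr, hpr, fun f hf g hg =>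
    (comm_mem hnorm hφΓ (hloc f hf) (hloc g hg) hf.1 hg.1 hd).1⟩

/-- conjugates of elements supported in the half ball by homeomorphisms near the identity -/
theorem conj_HK {p : E n} {r : ℝ} (hr : 0 < r) {a w : E n ≃ₜ E n} (ha : IsHam a)
    (has : Supp (D p (r / 2)) a) (hw : w ∈ HamBar n)
    (hwx : ∀ x, dist (w x) x < r / (8 * (2 * (n : ℝ) + 1))) : w * a * w⁻¹ ∈ HK n (D p r) := by
  have hC : (0 : ℝ) < 2 * (n : ℝ) + 1 := by positivity
  obtain ⟨K, hK, -, h1, u, h2, h3, h4⟩ := (mem_iff Pool.Agent.Y907.HB.mul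
    Pool.Agent.Y510.HB.inv Pool.Agent.Y309.HB.uc).1 hw
  have hu : UConv u w := uconv_of Pool.Agent.Y309.HB.uc hK h1 h4
  have hconv : UConv (fun k => u k * a * (u k)⁻¹) (w * a * w⁻¹) :=
    Pool.Agent.Y309.HB.uc_mul (Pool.Agent.Y309.HB.uc_mul hu
      (uconv_const (D_compact _ _) has)) (Pool.Agent.Y309.HB.uc_inv hu)
  have hδ : 0 < r / (8 * (2 * (n : ℝ) + 1)) := by positivity
  have key : ∀ v : E n ≃ₜ E n, (∀ x, dist (v x) x < 2 * (r / (8 * (2 * (n : ℝ) + 1)))) →
      Supp (D p r) (v * a * v⁻¹) := by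
    intro v hv
    refine (has.conj v).mono ?_
    rintro _ ⟨x, hx, rfl⟩
    have e1 : nm (x - p) ≤ r / 2 := hx
    have e2 : nm (v x - x) ≤ (2 * (n : ℝ) + 1) * ‖v x - x‖ := F1.nm_le _
    have e3 : ‖v x - x‖ < 2 * (r / (8 * (2 * (n : ℝ) + 1))) := by
      rw [← dist_eq_norm]
      exact hv x
    have e4 : (2 * (n : ℝ) + 1) * (2 * (r / (8 * (2 * (n : ℝ) + 1)))) = r / 4 := by
      field_simp
      ring
    have e5 := nm_tri (v x) x p
    have e6 := mul_le_mul_of_nonneg_left e3.le hC.le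
    show nm (v x - p) ≤ r
    linarith
  obtain ⟨M, hM⟩ := eventually_atTop.1 (Metric.tendstoUniformly_iff.1 h4 _ hδ)
  refine ⟨key w fun x => (hwx x).trans (by linarith), fun k => u (k + M) * a * (u (k + M))⁻¹,
    fun k => key _ fun x => ?_, fun k => ?_, ?_⟩
  · have e1 := hM (k + M) (by omega) x
    have e2 := dist_triangle (u (k + M) x) (w x) x
    rw [dist_comm] at e1
    linarith [hwx x]
  · exact Pool.Agent.Y907.HB.mul n _ _ (Pool.Agent.Y907.HB.mul n _ _ (h3 _) ha)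
      ((Pool.Agent.Y510.HB.inv n).2 _ (h3 _))
  · have e1 := hconv.1
    rw [Metric.tendstoUniformly_iff] at e1 ⊢
    intro ε hε
    obtain ⟨M', hM'⟩ := eventually_atTop.1 (e1 ε hε)
    exact eventually_atTop.2 ⟨M', fun k hk x => hM' (k + M) (by omega) x⟩

/-- **Main theorem.** A subgroup of countable index contains all conjugates of some nontrivial
element. -/
theorem main (hn : 0 < n) {N : Subgroup (E n ≃ₜ E n)} (hNle : N ≤ HamBar n)
    (hN : Cov (HamBar n) N) :
    ∃ s ∈ HamBar n, s ≠ 1 ∧ ∀ γ ∈ HamBar n, γ * s * γ⁻¹ ∈ N := by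
  obtain ⟨p, r, hr, hpr, hcomm⟩ := exists_ball hn hN
  obtain ⟨a, ha, has, hap⟩ := exists_push hn p (show 0 < r / 2 by positivity) (by linarith)
  obtain ⟨ρ, hρ, hpρ, -, hd⟩ := displaced hap univ_mem (by linarith : nm p < 1)
  have hρ' : 0 < min ρ (r / 2) := lt_min hρ (by positivity)
  obtain ⟨b, hb, hbs, hbp⟩ := exists_push hn p hρ'
    (by have := min_le_right ρ (r / 2); linarith)
  have hD1 : D p (min ρ (r / 2)) ⊆ D p (r / 2) := fun x (hx : nm (x - p) ≤ min ρ (r / 2)) =>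
    show nm (x - p) ≤ r / 2 from hx.trans (min_le_right _ _)
  have hD2 : D p (min ρ (r / 2)) ⊆ D p ρ := fun x (hx : nm (x - p) ≤ min ρ (r / 2)) =>
    show nm (x - p) ≤ ρ from hx.trans (min_le_left _ _)
  have hbs1 : Supp (D p (r / 2)) b := hbs.mono hD1
  have hbs2 : Supp (D p ρ) b := hbs.mono hD2
  refine ⟨⁅a, b⁆, ?_, ?_, fun γ hγ => ?_⟩
  · have ha' := isHam_mem ha
    have hb' := isHam_mem hb
    rw [commutatorElement_def]
    exact (HamBar n).mul_mem ((HamBar n).mul_mem ((HamBar n).mul_mem ha' hb')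
      ((HamBar n).inv_mem ha')) ((HamBar n).inv_mem hb')
  · intro h
    have h1 : a * b * a⁻¹ = b := by
      rw [commutatorElement_def, mul_inv_eq_one] at h
      exact h
    have h2 : (a * b * a⁻¹) p = p := by
      apply (hbs2.conj a) p
      intro h3
      exact Set.disjoint_left.1 hd h3 (mem_D_self p hρ.le)
    rw [h1] at h2
    exact hbp h2
  · have hδ : 0 < r / (8 * (2 * (n : ℝ) + 1)) := by positivity
    obtain ⟨m, hm, hm2⟩ := dense hN ((HamBar n).inv_mem hγ) _ hδ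
    obtain ⟨w, hw⟩ : ∃ w, w = m * γ := ⟨_, rfl⟩
    have hwmem : w ∈ HamBar n := by
      rw [hw]
      exact (HamBar n).mul_mem (hNle hm) hγ
    have hwx : ∀ x, dist (w x) x < r / (8 * (2 * (n : ℝ) + 1)) := by
      intro x
      have h1 := hm2 (γ x)
      rw [inv_apply_self] at h1
      rw [hw]
      exact h1
    have h1 := hcomm _ (conj_HK hr ha has hwmem hwx) _ (conj_HK hr hb hbs1 hwmem hwx)
    have e : γ * ⁅a, b⁆ * γ⁻¹ = m⁻¹ * ⁅w * a * w⁻¹, w * b * w⁻¹⁆ * m := by
      rw [hw]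
      simp only [commutatorElement_def]
      group
    rw [e]
    exact N.mul_mem (N.mul_mem (N.inv_mem hm) h1) hm

end Pool.Agent.U939.HI
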