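import Pool.Agent.R773.HN.Fin
import Pool.Agent.N235.DH.Fin

/-!
# Infinite products of Hamiltonian homeomorphisms supported in disjoint shrinking balls
-/

set_option autoImplicit false

open Set Filter Topology Function
open Pool.Agent.Y453.HB Pool.Agent.R773.HN Pool.Agent.N235.DH

namespace Pool.Agent.U939.HI

variable {n : ℕ}

/-- disjoint shrinking balls in a ball -/
structure Balls (n : ℕ) (z : E n) (r : ℝ) where
  q : ℕ → E n
  R : ℕ → ℝ
  hR : ∀ k, 0 < R k
  hR0 : Tendsto R atTop (𝓝 0)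
  hdis : ∀ j k, j ≠ k → Disjoint (D (q j) (R j)) (D (q k) (R k))
  hsub : ∀ k, D (q k) (R k) ⊆ D z r
  hnm : ∀ k, nm (q k) + R k ≤ nm z + r

/-- a family of homeomorphisms supported in the balls -/
structure IsFam {z : E n} {r : ℝ} (d : Balls n z r) (f : ℕ → (E n ≃ₜ E n)) : Prop where
  hk : ∀ k, f k ∈ HK n (D z r)
  supp : ∀ k, Supp (D (d.q k) (d.R k)) (f k)

theorem IsFam.inv {z : E n} {r : ℝ} {d : Balls n z r} {f : ℕ → (E n ≃ₜ E n)} (h : IsFam d f) :
    IsFam d fun k => (f k)⁻¹ :=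
  ⟨fun k => HK_inv (D_compact _ _) (h.hk k), fun k => (h.supp k).inv⟩

namespace Balls

variable {z : E n} {r : ℝ} (d : Balls n z r)

open Classical in
/-- the infinite product, as a map -/
noncomputable def X (f : ℕ → (E n ≃ₜ E n)) (y : E n) : E n :=
  if h : ∃ k, y ∈ D (d.q k) (d.R k) then f h.choose y else y

theorem X_mem (f : ℕ → (E n ≃ₜ E n)) {k : ℕ} {y : E n} (hy : y ∈ D (d.q k) (d.R k)) :
    d.X f y = f k y := by
  have h : ∃ k, y ∈ D (d.q k) (d.R k) := ⟨k, hy⟩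
  have h1 : h.choose = k := by
    by_contra hne
    exact Set.disjoint_left.1 (d.hdis _ _ hne) h.choose_spec hy
  unfold X
  rw [dif_pos h, h1]

theorem X_notMem (f : ℕ → (E n ≃ₜ E n)) {y : E n} (hy : ∀ k, y ∉ D (d.q k) (d.R k)) :
    d.X f y = y := by
  unfold X
  rw [dif_neg]
  rintro ⟨k, hk⟩
  exact hy k hk

theorem X_maps {f : ℕ → (E n ≃ₜ E n)} (hf : IsFam d f) {k : ℕ} {y : E n}
    (hy : y ∈ D (d.q k) (d.R k)) : d.X f y ∈ D (d.q k) (d.R k) := by
  rw [d.X_mem f hy]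
  exact (hf.supp k).maps hy

theorem X_inv {f g : ℕ → (E n ≃ₜ E n)} (hf : IsFam d f) (hfg : ∀ k, g k = (f k)⁻¹) (y : E n) :
    d.X g (d.X f y) = y := by
  by_cases h : ∃ k, y ∈ D (d.q k) (d.R k)
  · obtain ⟨k, hk⟩ := h
    rw [d.X_mem g (d.X_maps hf hk), d.X_mem f hk, hfg k, inv_apply_self]
  · push Not at h
    rw [d.X_notMem f h, d.X_notMem g h]

/-- the partial products -/
noncomputable def w (f : ℕ → (E n ≃ₜ E n)) : ℕ → (E n ≃ₜ E n)
  | 0 => 1
  | m + 1 => f m * w f m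

theorem w_HK {f : ℕ → (E n ≃ₜ E n)} (hf : IsFam d f) (m : ℕ) : w f m ∈ HK n (D z r) := by
  induction m with
  | zero => exact HK_one _
  | succ m ih => exact HK_mul (D_compact _ _) (hf.hk m) ih

theorem w_apply {f : ℕ → (E n ≃ₜ E n)} (hf : IsFam d f) (m : ℕ) (y : E n) :
    (∃ k < m, y ∈ D (d.q k) (d.R k) ∧ w f m y = f k y) ∨
      ((∀ k < m, y ∉ D (d.q k) (d.R k)) ∧ w f m y = y) := by
  induction m with
  | zero => exact Or.inr ⟨fun k hk => absurd hk (Nat.not_lt_zero k), rfl⟩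
  | succ m ih =>
    have hw : w f (m + 1) y = f m (w f m y) := rfl
    rcases ih with ⟨k, hk, hy, he⟩ | ⟨hy, he⟩
    · refine Or.inl ⟨k, Nat.lt_succ_of_lt hk, hy, ?_⟩
      rw [hw, he]
      apply hf.supp m
      intro h
      exact Set.disjoint_left.1 (d.hdis k m (by omega)) ((hf.supp k).maps hy) h
    · by_cases hm : y ∈ D (d.q m) (d.R m)
      · refine Or.inl ⟨m, Nat.lt_succ_self m, hm, ?_⟩
        rw [hw, he]
      · refine Or.inr ⟨fun k hk => ?_, ?_⟩
        · rcases Nat.lt_succ_iff_lt_or_eq.1 hk with h | h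
          · exact hy k h
          · rw [h]
            exact hm
        · rw [hw, he]
          exact hf.supp m y hm

theorem unif {f : ℕ → (E n ≃ₜ E n)} (hf : IsFam d f) :
    TendstoUniformly (fun (m : ℕ) (y : E n) => w f m y) (fun y => d.X f y) atTop := by
  rw [Metric.tendstoUniformly_iff]
  intro ε hε
  obtain ⟨M, hM⟩ := eventually_atTop.1 (d.hR0.eventually (gt_mem_nhds (half_pos hε)))
  filter_upwards [eventually_ge_atTop M] with m hm y
  rcases d.w_apply hf m y with ⟨k, hk, hy, he⟩ | ⟨hy, he⟩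
  · rw [he, d.X_mem f hy, dist_self]
    exact hε
  · rw [he]
    by_cases h : ∃ k, y ∈ D (d.q k) (d.R k)
    · obtain ⟨k, hk⟩ := h
      have hkm : m ≤ k := by
        by_contra hc
        exact hy k (not_le.1 hc) hk
      have h1 : nm (d.X f y - d.q k) ≤ d.R k := d.X_maps hf hk
      have h2 : nm (d.q k - y) ≤ d.R k := by
        rw [nm_sub_comm]
        exact hk
      have h3 := nm_tri (d.X f y) (d.q k) y
      have h4 := norm_le_nm (d.X f y - y)
      have h5 := hM k (hm.trans hkm)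
      rw [dist_eq_norm]
      linarith
    · push Not at h
      rw [d.X_notMem f h, dist_self]
      exact hε

theorem X_cont {f : ℕ → (E n ≃ₜ E n)} (hf : IsFam d f) : Continuous (d.X f) :=
  (d.unif hf).continuous (Frequently.of_forall fun m => (w f m).continuous)

/-- the infinite product -/
theorem infprod {f : ℕ → (E n ≃ₜ E n)} (hf : IsFam d f) :
    ∃ X ∈ HK n (D z r), (∀ k, ∀ y ∈ D (d.q k) (d.R k), X y = f k y) ∧
      ∀ y, (∀ k, y ∉ D (d.q k) (d.R k)) → X y = y := by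
  let Y : E n ≃ₜ E n :=
    { toFun := d.X f
      invFun := d.X fun k => (f k)⁻¹
      left_inv := fun y => d.X_inv hf (fun _ => rfl) y
      right_inv := fun y => d.X_inv hf.inv (fun k => (inv_inv (f k)).symm) y
      continuous_toFun := d.X_cont hf
      continuous_invFun := d.X_cont hf.inv }
  have hY : ∀ y, Y y = d.X f y := fun y => rfl
  refine ⟨Y, ?_, fun k y hy => by rw [hY, d.X_mem f hy], fun y hy => by rw [hY, d.X_notMem f hy]⟩
  refine HK_closed (fun m => d.w_HK hf m) ?_ (d.unif hf)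
  intro y hy
  exact d.X_notMem f fun k hk => hy (d.hsub k hk)

end Balls

/-- there are disjoint shrinking balls in every ball -/
theorem exists_balls (hn : 0 < n) (z : E n) {r : ℝ} (hr : 0 < r) : Nonempty (Balls n z r) := by
  obtain ⟨e, he⟩ := exists_vec hn (show (0 : ℝ) < 1 by norm_num)
  have hp : ∀ k : ℕ, 0 < (1 / 2 : ℝ) ^ k := fun k => by positivity
  have hdist : ∀ j k : ℕ, j < k → Disjoint (D (z + (3 / 4 * r * (1 / 2) ^ j) • e) (r / 8 * (1 / 2) ^ j))
      (D (z + (3 / 4 * r * (1 / 2) ^ k) • e) (r / 8 * (1 / 2) ^ k)) := by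
    intro j k hjk
    rw [Set.disjoint_left]
    intro y h1 h2
    have h1' : nm (y - (z + (3 / 4 * r * (1 / 2) ^ j) • e)) ≤ r / 8 * (1 / 2) ^ j := h1
    have h2' : nm (y - (z + (3 / 4 * r * (1 / 2) ^ k) • e)) ≤ r / 8 * (1 / 2) ^ k := h2
    have h3 := nm_tri (z + (3 / 4 * r * (1 / 2) ^ j) • e) y (z + (3 / 4 * r * (1 / 2) ^ k) • e)
    have e1 : z + (3 / 4 * r * (1 / 2) ^ j) • e - (z + (3 / 4 * r * (1 / 2) ^ k) • e) =
        (3 / 4 * r * ((1 / 2) ^ j - (1 / 2) ^ k)) • e := by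
      rw [add_sub_add_left_eq_sub, ← sub_smul]
      congr 1
      ring
    have h4 : (1 / 2 : ℝ) ^ k ≤ 1 / 2 * (1 / 2) ^ j := by
      have h5 : (1 / 2 : ℝ) ^ k ≤ (1 / 2) ^ (j + 1) :=
        pow_le_pow_of_le_one (by norm_num) (by norm_num) hjk
      rw [pow_succ] at h5
      linarith
    have hj := hp j
    rw [e1, nm_smul, he, abs_of_nonneg (by
      have : 0 ≤ (1 / 2 : ℝ) ^ j - (1 / 2) ^ k := by linarith
      positivity), nm_sub_comm (z + (3 / 4 * r * (1 / 2) ^ j) • e) y] at h3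
    nlinarith [mul_pos hr hj, mul_le_mul_of_nonneg_left h4 hr.le]
  refine ⟨{ q := fun k => z + (3 / 4 * r * (1 / 2) ^ k) • e, R := fun k => r / 8 * (1 / 2) ^ k,
            hR := fun k => by positivity, hR0 := ?_, hdis := ?_, hsub := ?_, hnm := ?_ }⟩
  · have := (tendsto_pow_atTop_nhds_zero_of_lt_one (show (0 : ℝ) ≤ 1 / 2 by norm_num)
      (by norm_num)).const_mul (r / 8)
    simpa using this
  · intro j k hjk
    rcases lt_or_gt_of_ne hjk with h | h
    · exact hdist j k h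
    · exact (hdist k j h).symm
  · intro k y hy
    have h1 : nm (y - (z + (3 / 4 * r * (1 / 2) ^ k) • e)) ≤ r / 8 * (1 / 2) ^ k := hy
    show nm (y - z) ≤ r
    have h2 := nm_tri y (z + (3 / 4 * r * (1 / 2) ^ k) • e) z
    have e1 : z + (3 / 4 * r * (1 / 2) ^ k) • e - z = (3 / 4 * r * (1 / 2) ^ k) • e := by
      rw [add_sub_cancel_left]
    rw [e1, nm_smul, he, abs_of_nonneg (by positivity)] at h2
    have h3 : (1 / 2 : ℝ) ^ k ≤ 1 := pow_le_one₀ (by norm_num) (by norm_num)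
    nlinarith [mul_le_mul_of_nonneg_left h3 hr.le]
  · intro k
    show nm (z + (3 / 4 * r * (1 / 2) ^ k) • e) + r / 8 * (1 / 2) ^ k ≤ nm z + r
    have h2 := nm_add z ((3 / 4 * r * (1 / 2) ^ k) • e)
    rw [nm_smul, he, abs_of_nonneg (by positivity)] at h2
    have h3 : (1 / 2 : ℝ) ^ k ≤ 1 := pow_le_one₀ (by norm_num) (by norm_num)
    nlinarith [mul_le_mul_of_nonneg_left h3 hr.le]

end Pool.Agent.U939.HI
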