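import Pool.Agent.U939.HI.Main

/-!
# The smallest normal subgroup: commutators, agreement on a ball
-/

set_option autoImplicit false

open Set Filter Topology Function
open Pool.Agent.Y453.HB Pool.Agent.R773.HN Pool.Agent.N235.DH
open scoped commutatorElement

namespace Pool.Agent.U939.HI

variable {n : ℕ}

theorem hTR : S_TRANS := trans flow

theorem hTT : S_TROT := trot flow cover bd step

theorem mid (n : ℕ) : Mid (HamBar n) := ⟨fun _ hu => isHam_mem hu, le_rfl⟩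

/-- the smallest nontrivial normal subgroup -/
abbrev SS (n : ℕ) : Subgroup (E n ≃ₜ E n) := Mono (HamBar n)

theorem comm_SS (hn : 0 < n) {z : E n} {r : ℝ} (hr : 0 < r) (hr2 : r < 1 / 2) (hz : nm z + r < 1)
    {f g : E n ≃ₜ E n} (hf : f ∈ HK n (D z r)) (hg : g ∈ HK n (D z r)) : ⁅f, g⁆ ∈ SS n :=
  comm_ball hTR hTT hn (mid n) hr hr2 hz (HK_mem (D_compact _ _) (D_sub_Q hz) hf)
    (HK_mem (D_compact _ _) (D_sub_Q hz) hg) hf.1 hg.1

theorem agree_mul {A : Set (E n)} {f g f' g' : E n ≃ₜ E n} (hs : Supp A g')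
    (h1 : ∀ y ∈ A, f y = g y) (h2 : ∀ y ∈ A, f' y = g' y) : ∀ y ∈ A, (f * f') y = (g * g') y := by
  intro y hy
  rw [mul_apply, mul_apply, h2 y hy, h1 _ (hs.maps hy)]

theorem agree_inv {A : Set (E n)} {f g : E n ≃ₜ E n} (hs : Supp A g)
    (h1 : ∀ y ∈ A, f y = g y) : ∀ y ∈ A, f⁻¹ y = g⁻¹ y := by
  intro y hy
  have h2 : g⁻¹ y ∈ A := hs.inv.maps hy
  have h3 := h1 _ h2
  rw [apply_inv_self] at h3
  calc f⁻¹ y = f⁻¹ (f (g⁻¹ y)) := by rw [h3]
    _ = g⁻¹ y := inv_apply_self _ _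

theorem agree_comm {A : Set (E n)} {f g f' g' : E n ≃ₜ E n} (hs : Supp A g) (hs' : Supp A g')
    (h1 : ∀ y ∈ A, f y = g y) (h2 : ∀ y ∈ A, f' y = g' y) :
    ∀ y ∈ A, (⁅f, f'⁆ : E n ≃ₜ E n) y = (⁅g, g'⁆ : E n ≃ₜ E n) y := by
  rw [commutatorElement_def, commutatorElement_def]
  exact agree_mul hs'.inv (agree_mul hs.inv (agree_mul hs' h1 h2) (agree_inv hs h1))
    (agree_inv hs' h2)

theorem fam_ite {z : E n} {r : ℝ} {d : Balls n z r} {a : ℕ → (E n ≃ₜ E n)} (ha : IsFam d a)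
    (T : ℕ → Bool) : IsFam d fun k => if T k then a k else 1 := by
  refine ⟨fun k => ?_, fun k => ?_⟩
  · by_cases h : T k
    · simp only [h, if_true]
      exact ha.hk k
    · simp only [h, Bool.false_eq_true, if_false]
      exact HK_one _
  · by_cases h : T k
    · simp only [h, if_true]
      exact ha.supp k
    · simp only [h, Bool.false_eq_true, if_false]
      exact Supp.one _

/-- infinite products of commutators -/
theorem comm_prod (hn : 0 < n) {z : E n} {r : ℝ} (hr : 0 < r) (hr2 : r < 1 / 2)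
    (hz : nm z + r < 1) (d : Balls n z r) {a b : ℕ → (E n ≃ₜ E n)} (ha : IsFam d a)
    (hb : IsFam d b) : ∃ X : (ℕ → Bool) → (E n ≃ₜ E n), ∀ T, X T ∈ SS n ∧ X T ∈ HK n (D z r) ∧
      (∀ k, T k = true → ∀ y ∈ D (d.q k) (d.R k), X T y = (⁅a k, b k⁆ : E n ≃ₜ E n) y) ∧
      ∀ k, T k = false → ∀ y ∈ D (d.q k) (d.R k), X T y = y := by
  choose A hA1 hA2 hA3 using fun T => d.infprod (fam_ite ha T)
  choose B hB1 hB2 hB3 using fun T => d.infprod (fam_ite hb T)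
  refine ⟨fun T => ⁅A T, B T⁆, fun T => ⟨comm_SS hn hr hr2 hz (hA1 T) (hB1 T), ?_, ?_, ?_⟩⟩
  · show ⁅A T, B T⁆ ∈ HK n (D z r)
    rw [commutatorElement_def]
    have hD := D_compact z r
    exact HK_mul hD (HK_mul hD (HK_mul hD (hA1 T) (hB1 T)) (HK_inv hD (hA1 T)))
      (HK_inv hD (hB1 T))
  · intro k hk
    refine agree_comm (ha.supp k) (hb.supp k) (fun y hy => ?_) (fun y hy => ?_)
    · rw [hA2 T k y hy]
      simp [hk]
    · rw [hB2 T k y hy]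
      simp [hk]
  · intro k hk
    have h1 := agree_comm (A := D (d.q k) (d.R k)) (f := A T) (g := 1) (f' := B T) (g' := 1)
      (Supp.one _) (Supp.one _) (fun y hy => by rw [hA2 T k y hy]; simp [hk])
      (fun y hy => by rw [hB2 T k y hy]; simp [hk])
    intro y hy
    have h2 := h1 y hy
    rw [commutatorElement_one_left] at h2
    exact h2

/-- for one of the balls, all commutators of local elements agree there with elements of `N` -/
theorem full_comm (hn : 0 < n) {z : E n} {r : ℝ} (hr : 0 < r) (hr2 : r < 1 / 2)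
    (hz : nm z + r < 1) (d : Balls n z r) {N : Subgroup (E n ≃ₜ E n)} (hN : Cov (SS n) N) :
    ∃ k, ∀ a ∈ Loc z r (D (d.q k) (d.R k)), ∀ b ∈ Loc z r (D (d.q k) (d.R k)), ∃ h ∈ N,
      ∀ y ∈ D (d.q k) (d.R k), h y = (⁅a, b⁆ : E n ≃ₜ E n) y := by
  by_contra hcon
  push Not at hcon
  choose a ha b hb hab using hcon
  obtain ⟨X, hX⟩ := comm_prod hn hr hr2 hz d (a := a) (b := b)
    ⟨fun k => (ha k).1, fun k => (ha k).2⟩ ⟨fun k => (hb k).1, fun k => (hb k).2⟩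
  have key : ∀ S T : ℕ → Bool, (X S)⁻¹ * X T ∈ N → ∀ k, S k = false → T k = true → False := by
    intro S T h k hS hT
    obtain ⟨y, hy, hy2⟩ := hab k _ h
    apply hy2
    have h1 : X T y = (⁅a k, b k⁆ : E n ≃ₜ E n) y := (hX T).2.2.1 k hT y hy
    have h2 : (⁅a k, b k⁆ : E n ≃ₜ E n) y ∈ D (d.q k) (d.R k) :=
      ((ha k).2.comm (hb k).2).maps hy
    have h3 : X S ((⁅a k, b k⁆ : E n ≃ₜ E n) y) = (⁅a k, b k⁆ : E n ≃ₜ E n) y :=
      (hX S).2.2.2 k hS _ h2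
    rw [mul_apply, h1]
    calc (X S)⁻¹ ((⁅a k, b k⁆ : E n ≃ₜ E n) y) =
        (X S)⁻¹ (X S ((⁅a k, b k⁆ : E n ≃ₜ E n) y)) := by rw [h3]
      _ = (⁅a k, b k⁆ : E n ≃ₜ E n) y := inv_apply_self _ _
  obtain ⟨S, T, hST, h1⟩ := hN X (fun T => (hX T).1)
  apply hST
  funext k
  cases hS : S k <;> cases hT : T k
  · rfl
  · exact (key S T h1 k hS hT).elim
  · refine (key T S ?_ k hT hS).elim
    have h2 := N.inv_mem h1
    rwa [mul_inv_rev, inv_inv] at h2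
  · rfl

/-- a nontrivial local element of `N` -/
theorem exists_local_comm (hn : 0 < n) {z : E n} {r : ℝ} (hr : 0 < r) (hr2 : r < 1 / 2)
    (hz : nm z + r < 1) {N : Subgroup (E n ≃ₜ E n)} (hN : Cov (SS n) N) :
    ∃ φ ∈ N, φ ∈ HK n (D z r) ∧ φ ≠ 1 := by
  obtain ⟨d⟩ := exists_balls hn z hr
  have hq : ∀ k, nm (d.q k) + d.R k < 1 := fun k => (d.hnm k).trans_lt hz
  choose a b ha hb has hbs hab using fun k => L3 hTR hn (d.hR k) (hq k)
  obtain ⟨X, hX⟩ := comm_prod hn hr hr2 hz d (a := a) (b := b)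
    ⟨fun k => HK_mono (d.hsub k) (HK_ham (ha k) (has k)), has⟩
    ⟨fun k => HK_mono (d.hsub k) (HK_ham (hb k) (hbs k)), hbs⟩
  obtain ⟨S, T, hST, h1⟩ := hN X (fun T => (hX T).1)
  refine ⟨_, h1, HK_mul (D_compact _ _) (HK_inv (D_compact _ _) (hX S).2.1) (hX T).2.1, ?_⟩
  intro h
  have h2 : X S = X T := by
    rw [inv_mul_eq_one] at h
    exact h
  apply hST
  funext k
  by_contra hk
  obtain ⟨y, hy⟩ := exists_moved (hab k)
  have hyD : y ∈ D (d.q k) (d.R k) := by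
    by_contra h3
    exact hy (((has k).comm (hbs k)) y h3)
  have h3 : X S y = X T y := by rw [h2]
  cases hS : S k <;> cases hT : T k
  · exact hk (hS.trans hT.symm)
  · rw [(hX S).2.2.2 k hS y hyD, (hX T).2.2.1 k hT y hyD] at h3
    exact hy h3.symm
  · rw [(hX S).2.2.1 k hS y hyD, (hX T).2.2.2 k hT y hyD] at h3
    exact hy h3
  · exact hk (hS.trans hT.symm)

/-- the local elements which agree with elements of `N` on `A` -/
def AG (z : E n) (r : ℝ) (A : Set (E n)) (N : Subgroup (E n ≃ₜ E n)) :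
    Subgroup (E n ≃ₜ E n) where
  carrier := {x | x ∈ Loc z r A ∧ ∃ h ∈ N, ∀ y ∈ A, h y = x y}
  one_mem' := ⟨Subgroup.one_mem _, 1, N.one_mem, fun _ _ => rfl⟩
  mul_mem' := by
    rintro a b ⟨h1, h, hh, h2⟩ ⟨h1', h', hh', h2'⟩
    exact ⟨Subgroup.mul_mem _ h1 h1', h * h', N.mul_mem hh hh', agree_mul h1'.2 h2 h2'⟩
  inv_mem' := by
    rintro a ⟨h1, h, hh, h2⟩
    exact ⟨Subgroup.inv_mem _ h1, h⁻¹, N.inv_mem hh, agree_inv h1.2 h2⟩

/-- the commutators of commutators of elements with support in a small ball are in `N` -/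
theorem exists_ball_comm (hn : 0 < n) {N : Subgroup (E n ≃ₜ E n)} (hN : Cov (SS n) N) :
    ∃ (p : E n) (r : ℝ), 0 < r ∧ nm p + r < 1 ∧ ∀ a ∈ HK n (D p r), ∀ b ∈ HK n (D p r),
      ∀ a' ∈ HK n (D p r), ∀ b' ∈ HK n (D p r), ⁅⁅a, b⁆, ⁅a', b'⁆⁆ ∈ N := by
  have hz : nm (0 : E n) + 1 / 4 < 1 := by rw [nm_zero]; norm_num
  obtain ⟨d⟩ := exists_balls hn (0 : E n) (show (0 : ℝ) < 1 / 4 by norm_num)
  obtain ⟨k, hk⟩ := full_comm hn (by norm_num) (by norm_num) hz d hN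
  have hRk : d.R k < 1 / 2 := by
    have h1 := d.hnm k
    have h2 := nm_nonneg (d.q k)
    rw [nm_zero] at h1
    linarith
  obtain ⟨φ, hφN, hφ1, hφ2⟩ := exists_local_comm hn (d.hR k) hRk ((d.hnm k).trans_lt hz) hN
  obtain ⟨Γ, hΓ⟩ : ∃ Γ, Γ = AG (0 : E n) (1 / 4) (D (d.q k) (d.R k)) N := ⟨_, rfl⟩
  have hnorm : NormIn Γ (N ⊓ Γ) := by
    refine ⟨inf_le_right, fun g hg x hx => ⟨?_, Γ.mul_mem (Γ.mul_mem hg hx.2) (Γ.inv_mem hg)⟩⟩
    have hg' : g ∈ AG (0 : E n) (1 / 4) (D (d.q k) (d.R k)) N := hΓ ▸ hg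
    have hx' : x ∈ AG (0 : E n) (1 / 4) (D (d.q k) (d.R k)) N := hΓ ▸ hx.2
    obtain ⟨h, hh, hh2⟩ := hg'.2
    have e : g * x * g⁻¹ = h * x * h⁻¹ := conj_agree hg'.1.2 hx'.1.2 hh2
    change g * x * g⁻¹ ∈ N
    rw [e]
    exact N.mul_mem (N.mul_mem hh hx.1) (N.inv_mem hh)
  obtain ⟨p, hp⟩ := exists_moved hφ2
  have hφs : Supp (D (d.q k) (d.R k)) φ := hφ1.1
  have hW : {x | φ x ≠ x} ∈ 𝓝 p := (isOpen_ne_fun φ.continuous continuous_id).mem_nhds hp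
  have hpD : p ∈ D (d.q k) (d.R k) := by
    by_contra h
    exact hp (hφs p h)
  have hp1 : nm p < 1 := nm_lt_one (D_sub_Q hz (d.hsub k hpD))
  obtain ⟨r, hr, hpr, hWr, hd⟩ := displaced hp hW hp1
  have hDD : D p r ⊆ D (d.q k) (d.R k) := by
    intro x hx
    by_contra h
    exact hWr hx (hφs x h)
  have hφΓ : φ ∈ N ⊓ Γ := ⟨hφN, by
    rw [hΓ]
    exact ⟨⟨HK_mono (d.hsub k) hφ1, hφs⟩, φ, hφN, fun _ _ => rfl⟩⟩
  have hloc : ∀ f ∈ HK n (D p r), f ∈ Loc (0 : E n) (1 / 4) (D (d.q k) (d.R k)) := fun f hf =>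
    ⟨HK_mono (hDD.trans (d.hsub k)) hf, Supp.mono hDD hf.1⟩
  have hcm : ∀ f ∈ HK n (D p r), ∀ g ∈ HK n (D p r), ⁅f, g⁆ ∈ Γ := by
    intro f hf g hg
    rw [hΓ]
    obtain ⟨h, hh, hh2⟩ := hk f (hloc f hf) g (hloc g hg)
    refine ⟨?_, h, hh, hh2⟩
    rw [commutatorElement_def]
    exact Subgroup.mul_mem _ (Subgroup.mul_mem _ (Subgroup.mul_mem _ (hloc f hf) (hloc g hg))
      (Subgroup.inv_mem _ (hloc f hf))) (Subgroup.inv_mem _ (hloc g hg))
  exact ⟨p, r, hr, hpr, fun a ha b hb a' ha' b' hb' =>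
    (comm_mem hnorm hφΓ (hcm a ha b hb) (hcm a' ha' b' hb') (Supp.comm ha.1 hb.1)
      (Supp.comm ha'.1 hb'.1) hd).1⟩

end Pool.Agent.U939.HI
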